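import Mathlib

set_option autoImplicit false
open scoped InnerProductSpace ComplexConjugate ComplexOrder
open Matrix

namespace Pool.Agent.H.MP_e3a8c8_an

universe u

theorem exists_real {V : Type u} [AddCommGroup V] [Module ℂ V]
    (c : PreInnerProductSpace.Core ℂ V) :
    ∃ (L : Type u) (_ : NormedAddCommGroup L) (_ : InnerProductSpace ℂ L) (D : V →ₗ[ℂ] L),
      ∀ x y, ⟪D x, D y⟫_ℂ = c.inner x y := by
  let _ : SeminormedAddCommGroup V := InnerProductSpace.Core.toSeminormedAddCommGroup (𝕜 := ℂ)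
  let _ : InnerProductSpace ℂ V := .ofCore _
  refine ⟨UniformSpace.Completion V, inferInstance, inferInstance,
    (UniformSpace.Completion.toComplL : V →L[ℂ] _).toLinearMap, fun x y => ?_⟩
  simp only [ContinuousLinearMap.coe_coe, UniformSpace.Completion.coe_toComplL,
    UniformSpace.Completion.inner_coe]

/-- the quadratic form of `M` over the finite set `S` -/
noncomputable def form {Y : Type*} (S : Finset Y) (M : Matrix Y Y ℂ) (c : Y → ℂ) : ℂ :=
  ∑ i ∈ S, ∑ j ∈ S, conj (c i) * M i j * c j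

theorem form_supp {Y : Type*} (S : Finset Y) (M : Matrix Y Y ℂ) (c : Y →₀ ℂ)
    (h : c.support ⊆ S) :
    (c.sum fun i xi => c.sum fun j xj => star xi * M i j * xj) = form S M c := by
  unfold form
  rw [Finsupp.sum_of_support_subset _ h _ (by simp)]
  refine Finset.sum_congr rfl fun i _ => ?_
  rw [Finsupp.sum_of_support_subset _ h _ (by simp)]
  rfl

theorem form_nonneg {Y : Type*} {M : Matrix Y Y ℂ} (hM : M.PosSemidef) (S : Finset Y)
    (c : Y → ℂ) : 0 ≤ form S M c := by
  classical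
  have h := hM.2 (Finsupp.onFinset S (fun i => if i ∈ S then c i else 0) (by
    intro i hi; by_contra h; simp [h] at hi))
  rw [form_supp S M _ Finsupp.support_onFinset_subset] at h
  convert h using 1
  unfold form
  refine Finset.sum_congr rfl fun i hi => Finset.sum_congr rfl fun j hj => ?_
  simp [hi, hj]

theorem form_re_nonneg {Y : Type*} {M : Matrix Y Y ℂ} (hM : M.PosSemidef) (S : Finset Y)
    (c : Y → ℂ) : 0 ≤ (form S M c).re := (Complex.le_def.1 (form_nonneg hM S c)).1

theorem form_conj {Y : Type*} {M : Matrix Y Y ℂ} (hM : M.IsHermitian) (S : Finset Y)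
    (c : Y → ℂ) : conj (form S M c) = form S M c := by
  unfold form
  simp only [map_sum, map_mul, Complex.conj_conj]
  rw [Finset.sum_comm]
  refine Finset.sum_congr rfl fun i _ => Finset.sum_congr rfl fun j _ => ?_
  rw [← hM.apply i j, Complex.star_def]
  ring

theorem psd_of {Y : Type*} {M : Matrix Y Y ℂ} (hM : M.IsHermitian)
    (h : ∀ c : Y →₀ ℂ, ∃ S : Finset Y, c.support ⊆ S ∧ 0 ≤ (form S M c).re) : M.PosSemidef := by
  refine ⟨hM, fun c => ?_⟩
  obtain ⟨S, h1, h2⟩ := h c
  rw [form_supp S M c h1]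
  exact Complex.le_def.2 ⟨h2, (Complex.conj_eq_iff_im.1 (form_conj hM S c)).symm⟩

theorem exists_gram {X : Type u} {l : Matrix X X ℂ} (hl : l.PosSemidef) :
    ∃ (L : Type u) (_ : NormedAddCommGroup L) (_ : InnerProductSpace ℂ L) (lam : X → L),
      ∀ x y, ⟪lam x, lam y⟫_ℂ = l x y := by
  let c : PreInnerProductSpace.Core ℂ (X →₀ ℂ) :=
    { inner := fun f g => f.sum fun i xi => g.sum fun j xj => star xi * l i j * xj
      conj_inner_symm := fun f g => by
        rw [Finsupp.sum_comm]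
        simp only [map_finsuppSum, map_mul]
        refine Finsupp.sum_congr fun i _ => Finsupp.sum_congr fun j _ => ?_
        rw [← hl.1.apply i j]
        simp only [Complex.star_def, Complex.conj_conj]
        ring
      re_inner_nonneg := fun f => (Complex.le_def.1 (hl.2 f)).1
      add_left := fun _ _ _ => by
        rw [Finsupp.sum_add_index'] <;> simp [← Finsupp.sum_add, add_mul]
      smul_left := fun _ _ _ => by
        rw [Finsupp.sum_smul_index] <;> simp [Finsupp.mul_sum, ← mul_assoc] }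
  obtain ⟨L, i1, i2, D, hD⟩ := exists_real c
  refine ⟨L, i1, i2, fun x => D (Finsupp.single x 1), fun x y => ?_⟩
  rw [hD]
  change ((Finsupp.single x (1 : ℂ)).sum fun i xi => (Finsupp.single y (1 : ℂ)).sum
    fun j xj => star xi * l i j * xj) = _
  simp

theorem ext_lemma {V : Type u} [AddCommGroup V] [Module ℂ V] {H1 H2 : Type*}
    [NormedAddCommGroup H1] [InnerProductSpace ℂ H1] [NormedAddCommGroup H2]
    [InnerProductSpace ℂ H2] (A : V →ₗ[ℂ] H1) (B : V →ₗ[ℂ] H2) (h : ∀ v, ‖B v‖ ≤ ‖A v‖)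
    (V0 : Submodule ℂ V) [FiniteDimensional ℂ V0] (v : V) :
    ∃ v0 ∈ V0, ∀ u ∈ V0, ⟪A u, A (v - v0)⟫_ℂ = ⟪B u, B (v - v0)⟫_ℂ := by
  let c : PreInnerProductSpace.Core ℂ V :=
    { inner := fun x y => ⟪A x, A y⟫_ℂ - ⟪B x, B y⟫_ℂ
      conj_inner_symm := fun f g => by simp
      re_inner_nonneg := fun f => by
        simp only [map_sub, inner_self_eq_norm_sq, sub_nonneg]
        exact pow_le_pow_left₀ (norm_nonneg _) (h f) 2
      add_left := fun _ _ _ => by simp only [map_add, inner_add_left]; ring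
      smul_left := fun _ _ _ => by simp only [map_smul, inner_smul_left]; ring }
  obtain ⟨L, i1, i2, D, hD⟩ := exists_real c
  let K := V0.map D
  have : CompleteSpace K := FiniteDimensional.complete ℂ K
  obtain ⟨v0, h0, h1⟩ := Submodule.mem_map.1 (K.starProjection_apply_mem (D v))
  refine ⟨v0, h0, fun u hu => ?_⟩
  have h2 := K.sub_starProjection_mem_orthogonal (D v)
  have h3 := Submodule.inner_right_of_mem_orthogonal (Submodule.mem_map_of_mem (f := D) hu) h2
  rw [← h1, ← map_sub, hD] at h3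
  exact sub_eq_zero.1 h3

section proj
variable {L : Type*} [NormedAddCommGroup L] [InnerProductSpace ℂ L]

/-- projection onto the orthogonal complement of `v` -/
noncomputable def Q (v : L) : L →ₗ[ℂ] L where
  toFun x := x - (⟪v, x⟫_ℂ / ⟪v, v⟫_ℂ) • v
  map_add' x y := by rw [inner_add_right, add_div, add_smul]; abel
  map_smul' c x := by
    rw [inner_smul_right, mul_div_assoc, mul_smul, RingHom.id_apply, smul_sub]

theorem Q_apply (v x : L) : Q v x = x - (⟪v, x⟫_ℂ / ⟪v, v⟫_ℂ) • v := rfl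

theorem inner_Q (v x : L) : ⟪v, Q v x⟫_ℂ = 0 := by
  rw [Q_apply, inner_sub_right, inner_smul_right]
  by_cases h : v = 0
  · simp [h]
  · rw [div_mul_cancel₀ _ (inner_self_ne_zero.2 h), sub_self]

theorem Q_self (v : L) : Q v v = 0 := by
  rw [Q_apply]
  by_cases h : v = 0
  · simp [h]
  · rw [div_self (inner_self_ne_zero.2 h), one_smul, sub_self]

theorem pyth (v x : L) (c : ℂ) : ‖Q v x + c • v‖ ^ 2 = ‖Q v x‖ ^ 2 + ‖c • v‖ ^ 2 := by
  have : ⟪Q v x, c • v⟫_ℂ = 0 := by
    rw [inner_smul_right, ← inner_conj_symm, inner_Q]; simp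
  rw [sq, sq, sq]
  exact norm_add_sq_eq_norm_sq_add_norm_sq_of_inner_eq_zero _ _ this

theorem norm_Q (v x : L) : ‖Q v x‖ ≤ ‖x‖ := by
  have := pyth v x (⟪v, x⟫_ℂ / ⟪v, v⟫_ℂ)
  rw [Q_apply v x, sub_add_cancel, ← Q_apply] at this
  refine (sq_le_sq₀ (norm_nonneg _) (norm_nonneg _)).1 ?_
  rw [this]
  exact le_add_of_nonneg_right (sq_nonneg _)

theorem inner_QQ (v x y : L) :
    ⟪Q v x, Q v y⟫_ℂ = ⟪x, y⟫_ℂ - ⟪x, v⟫_ℂ * ⟪v, y⟫_ℂ / ⟪v, v⟫_ℂ := by
  rw [Q_apply v x, inner_sub_left, inner_smul_left, inner_Q, mul_zero, sub_zero, Q_apply,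
    inner_sub_right, inner_smul_right]
  ring

end proj

end Pool.Agent.H.MP_e3a8c8_an
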