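import Mathlib
import Pool.Agent.H.MP_e3a8c8_an.A

set_option autoImplicit false
open scoped InnerProductSpace ComplexConjugate ComplexOrder
open Matrix

namespace Pool.Agent.H.MP_e3a8c8_an

theorem ext_lemma' {W : Type*} [AddCommGroup W] [Module ℂ W] {H1 H2 : Type*}
    [NormedAddCommGroup H1] [InnerProductSpace ℂ H1] [NormedAddCommGroup H2]
    [InnerProductSpace ℂ H2] (A : W →ₗ[ℂ] H1) (B : W →ₗ[ℂ] H2) (V1 V0 : Submodule ℂ W)
    (hle : V0 ≤ V1) (h : ∀ v ∈ V1, ‖B v‖ ≤ ‖A v‖) [FiniteDimensional ℂ V0] (v : W) (hv : v ∈ V1) :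
    ∃ v0 ∈ V0, ∀ u ∈ V0, ⟪A u, A (v - v0)⟫_ℂ = ⟪B u, B (v - v0)⟫_ℂ := by
  have : FiniteDimensional ℂ (V0.comap V1.subtype) :=
    (Submodule.comapSubtypeEquivOfLe hle).symm.finiteDimensional
  obtain ⟨v0, h0, h1⟩ := ext_lemma (A.comp V1.subtype) (B.comp V1.subtype) (fun v => h v.1 v.2)
    (V0.comap V1.subtype) ⟨v, hv⟩
  exact ⟨v0.1, h0, fun u hu => h1 ⟨u, hle hu⟩ hu⟩

variable {X : Type*} {L K : Type*} [NormedAddCommGroup L] [InnerProductSpace ℂ L]
  [NormedAddCommGroup K] [InnerProductSpace ℂ K] {m : ℕ}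

/-- the vector `∑ lam j ⊗ ξ j` -/
noncomputable def tens (F : Finset X) (lam : X → L) :
    (X → Fin m → ℂ) →ₗ[ℂ] PiLp 2 (fun _ : Fin m => L) where
  toFun ξ := WithLp.toLp 2 fun r => ∑ j ∈ F, ξ j r • lam j
  map_add' x y := by ext r; simp [add_smul, Finset.sum_add_distrib]
  map_smul' c x := by ext r; simp [mul_smul, Finset.smul_sum]

theorem tens_apply (F : Finset X) (lam : X → L) (ξ : X → Fin m → ℂ) (r : Fin m) :
    tens F lam ξ r = ∑ j ∈ F, ξ j r • lam j := rfl

theorem tens_congr (F : Finset X) (lam : X → L) {ξ ξ' : X → Fin m → ℂ}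
    (h : ∀ j ∈ F, ξ j = ξ' j) : tens F lam ξ = tens F lam ξ' := by
  ext r
  rw [tens_apply, tens_apply]
  exact Finset.sum_congr rfl fun j hj => by rw [h j hj]

theorem tens_insert [DecidableEq X] {F : Finset X} {i : X} (hi : i ∉ F) (lam : X → L)
    (ξ : X → Fin m → ℂ) (r : Fin m) :
    tens (insert i F) lam ξ r = ξ i r • lam i + tens F lam ξ r := by
  rw [tens_apply, tens_apply, Finset.sum_insert hi]

/-- the vectors of the compressed kernel -/
noncomputable def Qf (lam : X → L) (z : X) : X → L := fun j => Q (lam z) (lam j)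

theorem tens_Q (F : Finset X) (lam : X → L) (z : X) (ξ : X → Fin m → ℂ) (r : Fin m) :
    tens F (Qf lam z) ξ r = Q (lam z) (tens F lam ξ r) := by
  simp [tens_apply, Qf]

theorem tens_Q' [DecidableEq X] {F : Finset X} {i : X} (hi : i ∉ F) (lam : X → L)
    (ξ : X → Fin m → ℂ) (r : Fin m) :
    tens F (Qf lam i) ξ r = Q (lam i) (tens (insert i F) lam ξ r) := by
  rw [tens_insert hi, map_add, map_smul, Q_self, smul_zero, zero_add, tens_Q]

omit [InnerProductSpace ℂ L] [InnerProductSpace ℂ K] in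
theorem norm_le_of {x : PiLp 2 (fun _ : Fin m => L)} {y : PiLp 2 (fun _ : Fin m => K)}
    (h : ∀ r, ‖x r‖ ≤ ‖y r‖) : ‖x‖ ≤ ‖y‖ := by
  refine (sq_le_sq₀ (norm_nonneg _) (norm_nonneg _)).1 ?_
  rw [PiLp.norm_sq_eq_of_L2, PiLp.norm_sq_eq_of_L2]
  exact Finset.sum_le_sum fun r _ => pow_le_pow_left₀ (norm_nonneg _) (h r) 2

theorem pyth2 [DecidableEq X] {F : Finset X} {i : X} (hi : i ∉ F) (kap : X → K)
    (ζ : X → Fin m → ℂ) : ‖tens (insert i F) kap ζ‖ ^ 2 = ‖tens F (Qf kap i) ζ‖ ^ 2 +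
      ∑ r, ‖tens (insert i F) kap ζ r - Q (kap i) (tens (insert i F) kap ζ r)‖ ^ 2 := by
  rw [PiLp.norm_sq_eq_of_L2, PiLp.norm_sq_eq_of_L2, ← Finset.sum_add_distrib]
  refine Finset.sum_congr rfl fun r _ => ?_
  rw [tens_Q' hi]
  generalize tens (insert i F) kap ζ r = x
  have := pyth (kap i) x (⟪kap i, x⟫_ℂ / ⟪kap i, kap i⟫_ℂ)
  rw [Q_apply (kap i) x, sub_add_cancel] at this
  rw [this, Q_apply, sub_sub_cancel]

/-- admissible relations -/
def Adm (lam : X → L) (kap : X → K) (F : Finset X)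
    (G : X → Submodule ℂ ((Fin m → ℂ) × (Fin m → ℂ))) : Prop :=
  ∀ ξ ζ : X → Fin m → ℂ, (∀ j ∈ F, (ξ j, ζ j) ∈ G j) → ‖tens F kap ζ‖ ≤ ‖tens F lam ξ‖

/-- relations with full domain -/
def Full (g : Submodule ℂ ((Fin m → ℂ) × (Fin m → ℂ))) : Prop := ∀ η, ∃ ω, (η, ω) ∈ g

variable {lam : X → L} {kap : X → K} {G : X → Submodule ℂ ((Fin m → ℂ) × (Fin m → ℂ))}

theorem Adm.mono {F F' : Finset X} (h : Adm lam kap F G) (hF : F' ⊆ F) : Adm lam kap F' G := by
  classical
  intro ξ ζ hξ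
  have key : ∀ {M : Type _} [NormedAddCommGroup M] [InnerProductSpace ℂ M] (μ : X → M)
      (ξ : X → Fin m → ℂ), tens F μ (fun j => if j ∈ F' then ξ j else 0) = tens F' μ ξ := by
    intro M _ _ μ ξ
    ext r
    rw [tens_apply, tens_apply, ← Finset.sum_subset hF (fun j _ hj => by simp [hj])]
    exact Finset.sum_congr rfl fun j hj => by simp [hj]
  have key' : ∀ (μ : X → K)
      (ξ : X → Fin m → ℂ), tens F μ (fun j => if j ∈ F' then ξ j else 0) = tens F' μ ξ := by
    intro μ ξ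
    ext r
    rw [tens_apply, tens_apply, ← Finset.sum_subset hF (fun j _ hj => by simp [hj])]
    exact Finset.sum_congr rfl fun j hj => by simp [hj]
  rw [← key lam, ← key' kap]
  refine h _ _ fun j _ => ?_
  split_ifs with hj
  · exact hξ j hj
  · exact (G j).zero_mem

theorem final_step [DecidableEq X] {F : Finset X} {z : X} (hz : z ∉ F)
    (h : Adm lam kap (insert z F) G) (hf : Full (G z)) : Adm (Qf lam z) (Qf kap z) F G := by
  intro ξ ζ hξ
  obtain ⟨ω, hω⟩ := hf fun r => -(⟪lam z, tens F lam ξ r⟫_ℂ / ⟪lam z, lam z⟫_ℂ)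
  have hne : ∀ j ∈ F, j ≠ z := fun j hj e => hz (e ▸ hj)
  have h1 := h (Function.update ξ z fun r => -(⟪lam z, tens F lam ξ r⟫_ℂ / ⟪lam z, lam z⟫_ℂ))
    (Function.update ζ z ω) (by
      intro j hj
      rcases Finset.mem_insert.1 hj with rfl | hj
      · simpa using hω
      · simpa [Function.update_of_ne (hne j hj)] using hξ j hj)
  refine le_trans (norm_le_of fun r => ?_) (h1.trans (norm_le_of fun r => le_of_eq ?_))
  · rw [tens_congr F (Qf kap z) (ξ' := Function.update ζ z ω)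
      (fun j hj => by rw [Function.update_of_ne (hne j hj)]), tens_Q' hz]
    exact norm_Q _ _
  · rw [tens_insert hz, tens_Q, Q_apply, Function.update_self,
      tens_congr F lam (ξ := Function.update ξ z _) (ξ' := ξ)
        (fun j hj => by rw [Function.update_of_ne (hne j hj)]), neg_smul, neg_add_eq_sub]

theorem ext_step [DecidableEq X] {F : Finset X} {i : X} (hi : i ∉ F)
    (h : Adm lam kap (insert i F) G) (hT : Adm (Qf lam i) (Qf kap i) F G) :
    ∃ g, G i ≤ g ∧ Full g ∧ Adm lam kap (insert i F) (Function.update G i g) := by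
  let A := (tens (m := m) (insert i F) lam).comp (LinearMap.fst ℂ _ (X → Fin m → ℂ))
  let B := (tens (m := m) F (Qf kap i)).comp (LinearMap.snd ℂ (X → Fin m → ℂ) _)
  let V1 : Submodule ℂ ((X → Fin m → ℂ) × (X → Fin m → ℂ)) :=
    { carrier := {p | ∀ j ∈ F, (p.1 j, p.2 j) ∈ G j}
      add_mem' := fun ha hb j hj => (G j).add_mem (ha j hj) (hb j hj)
      zero_mem' := fun j _ => (G j).zero_mem
      smul_mem' := fun c _ ha j hj => (G j).smul_mem c (ha j hj) }
  let V0 : Submodule ℂ ((X → Fin m → ℂ) × (X → Fin m → ℂ)) :=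
    { carrier := {p | (∀ j ∈ insert i F, (p.1 j, p.2 j) ∈ G j) ∧
        ∀ j ∉ insert i F, p.1 j = 0 ∧ p.2 j = 0}
      add_mem' := fun ha hb => ⟨fun j hj => (G j).add_mem (ha.1 j hj) (hb.1 j hj),
        fun j hj => by simp [ha.2 j hj, hb.2 j hj]⟩
      zero_mem' := ⟨fun j _ => (G j).zero_mem, fun j _ => ⟨rfl, rfl⟩⟩
      smul_mem' := fun c _ ha => ⟨fun j hj => (G j).smul_mem c (ha.1 j hj),
        fun j hj => by simp [ha.2 j hj]⟩ }
  have hle : V0 ≤ V1 := fun p hp j hj => hp.1 j (Finset.mem_insert_of_mem hj)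
  have hAB : ∀ v ∈ V1, ‖B v‖ ≤ ‖A v‖ := fun v hv =>
    (hT v.1 v.2 hv).trans (norm_le_of fun r => by
      change _ ≤ ‖tens (insert i F) lam v.1 r‖
      rw [tens_Q' hi]; exact norm_Q _ _)
  have hfd : FiniteDimensional ℂ V0 := by
    let ρ : V0 →ₗ[ℂ] ({j // j ∈ insert i F} → (Fin m → ℂ) × (Fin m → ℂ)) :=
      { toFun := fun p j => (p.1.1 j, p.1.2 j)
        map_add' := fun _ _ => rfl
        map_smul' := fun _ _ => rfl }
    refine FiniteDimensional.of_injective ρ ((injective_iff_map_eq_zero ρ).2 fun p hp => ?_)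
    refine Subtype.ext (Prod.ext (funext fun j => ?_) (funext fun j => ?_))
    · by_cases hj : j ∈ insert i F
      · exact congrArg Prod.fst (congrFun hp ⟨j, hj⟩)
      · exact (p.2.2 j hj).1
    · by_cases hj : j ∈ insert i F
      · exact congrArg Prod.snd (congrFun hp ⟨j, hj⟩)
      · exact (p.2.2 j hj).2
  have hne : ∀ j ∈ F, j ≠ i := fun j hj e => hi (e ▸ hj)
  let e : (Fin m → ℂ) →ₗ[ℂ] ((X → Fin m → ℂ) × (X → Fin m → ℂ)) :=
    (LinearMap.inl ℂ _ _).comp (LinearMap.single ℂ (fun _ : X => Fin m → ℂ) i)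
  have he : ∀ η, e η ∈ V1 := fun η j hj => by
    have : (e η).1 j = 0 := by simp [e, Pi.single_eq_of_ne (hne j hj)]
    have h2 : (e η).2 j = 0 := by simp [e]
    rw [this, h2]
    exact (G j).zero_mem
  let P : ((X → Fin m → ℂ) × (X → Fin m → ℂ)) → Fin m → K := fun v r =>
    tens (insert i F) kap v.2 r - Q (kap i) (tens (insert i F) kap v.2 r)
  have Padd : ∀ v w r, P (v + w) r = P v r + P w r := by
    intro v w r
    simp only [P, Prod.snd_add, map_add, PiLp.add_apply]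
    abel
  let g : Submodule ℂ ((Fin m → ℂ) × (Fin m → ℂ)) :=
    { carrier := {p | ∃ v0 ∈ V0, (∀ u ∈ V0, ⟪A u, A (e p.1 - v0)⟫_ℂ = ⟪B u, B (e p.1 - v0)⟫_ℂ) ∧
        ∀ r, p.2 r • kap i = P v0 r}
      add_mem' := by
        rintro a b ⟨v, h1, h2, h3⟩ ⟨w, h4, h5, h6⟩
        refine ⟨v + w, V0.add_mem h1 h4, fun u hu => ?_, fun r => ?_⟩
        · rw [Prod.fst_add, map_add, add_sub_add_comm, map_add, map_add, inner_add_right,
            inner_add_right, h2 u hu, h5 u hu]
        · rw [Padd, ← h3, ← h6, Prod.snd_add, Pi.add_apply, add_smul]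
      zero_mem' := ⟨0, V0.zero_mem, fun u _ => by simp, fun r => by simp [P]⟩
      smul_mem' := by
        rintro c a ⟨v, h1, h2, h3⟩
        refine ⟨c • v, V0.smul_mem c h1, fun u hu => ?_, fun r => ?_⟩
        · rw [Prod.smul_fst, map_smul, ← smul_sub, map_smul, map_smul, inner_smul_right,
            inner_smul_right, h2 u hu]
        · rw [Prod.smul_snd, Pi.smul_apply, smul_eq_mul, mul_smul, h3]
          simp only [P, Prod.smul_snd, map_smul, PiLp.smul_apply, smul_sub] }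
  refine ⟨g, fun p hp => ?_, fun η => ?_, fun ξ ζ hξ => ?_⟩
  · refine ⟨(Pi.single i p.1, Pi.single i p.2), ⟨fun j hj => ?_, fun j hj => ?_⟩, fun u _ => ?_,
      fun r => ?_⟩
    · rcases Finset.mem_insert.1 hj with rfl | hj
      · simpa using hp
      · simp only [Pi.single_eq_of_ne (hne j hj)]
        exact (G j).zero_mem
    · have : j ≠ i := fun e => hj (e ▸ Finset.mem_insert_self _ _)
      simp [Pi.single_eq_of_ne this]
    · have h1 : A (e p.1 - (Pi.single i p.1, Pi.single i p.2)) = 0 := by simp [A, e]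
      have h2 : B (e p.1 - (Pi.single i p.1, Pi.single i p.2)) = 0 := by
        have : tens F (Qf kap i) (Pi.single i p.2) = 0 := by
          rw [tens_congr F _ (ξ' := 0) fun j hj => Pi.single_eq_of_ne (hne j hj) _, map_zero]
        simp [B, e, this]
      rw [h1, h2, inner_zero_right, inner_zero_right]
    · have : tens F kap (Pi.single i p.2) = 0 := by
        rw [tens_congr F _ (ξ' := 0) fun j hj => Pi.single_eq_of_ne (hne j hj) _, map_zero]
      simp [P, tens_insert hi, this, Q_self]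
  · obtain ⟨v0, h0, h1⟩ := ext_lemma' A B V1 V0 hle hAB (e η) (he η)
    exact ⟨fun r => ⟪kap i, tens (insert i F) kap v0.2 r⟫_ℂ / ⟪kap i, kap i⟫_ℂ, v0, h0, h1,
      fun r => by simp only [P, Q_apply, sub_sub_cancel]⟩
  · obtain ⟨v0, h0, h1, h2⟩ : (ξ i, ζ i) ∈ g := by
      simpa using hξ i (Finset.mem_insert_self _ _)
    let v1 : (X → Fin m → ℂ) × (X → Fin m → ℂ) :=
      (fun j => if j ∈ F then ξ j else 0, fun j => if j ∈ F then ζ j else 0)
    have hv1 : v1 ∈ V0 := by
      refine ⟨fun j hj => ?_, fun j hj => ?_⟩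
      · by_cases hjF : j ∈ F
        · simpa [v1, hjF, Function.update_of_ne (hne j hjF)] using hξ j hj
        · simp only [v1, hjF, if_false]
          exact (G j).zero_mem
      · have : j ∉ F := fun h => hj (Finset.mem_insert_of_mem h)
        simp [v1, this]
    have hu := V0.add_mem hv1 h0
    have hy : e (ξ i) - v0 ∈ V1 := V1.sub_mem (he _) (hle h0)
    have e1 : tens (insert i F) lam ξ = A (v1 + v0) + A (e (ξ i) - v0) := by
      rw [← map_add, add_add_sub_cancel]
      refine tens_congr _ _ fun j hj => ?_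
      rcases Finset.mem_insert.1 hj with rfl | hj
      · simp [v1, e, hi]
      · simp [v1, e, hj, Pi.single_eq_of_ne (hne j hj)]
    have e2 : tens F (Qf kap i) ζ = B (v1 + v0) + B (e (ξ i) - v0) := by
      rw [← map_add, add_add_sub_cancel]
      refine tens_congr _ _ fun j hj => ?_
      simp [v1, e, hj]
    have e3 : ∀ r, tens (insert i F) kap ζ r - Q (kap i) (tens (insert i F) kap ζ r) =
        P (v1 + v0) r := by
      intro r
      have : tens F kap v1.2 = tens F kap ζ := tens_congr _ _ fun j hj => by simp [v1, hj]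
      rw [Padd, ← h2]
      simp only [P, tens_insert hi, this, map_add, map_smul, Q_self]
      simp [v1, hi]
      abel
    have e4 := pyth2 hi kap ζ
    have e5 := pyth2 hi kap (v1 + v0).2
    have e6 := pow_le_pow_left₀ (norm_nonneg _) (h (v1 + v0).1 (v1 + v0).2 hu.1) 2
    have e7 := pow_le_pow_left₀ (norm_nonneg _) (hAB _ hy) 2
    have e8 := h1 _ hu
    refine (sq_le_sq₀ (norm_nonneg _) (norm_nonneg _)).1 ?_
    simp only [e3] at e4
    rw [e4, e1, e2, norm_add_sq (𝕜 := ℂ), norm_add_sq (𝕜 := ℂ), e8]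
    change _ ≤ ‖A (v1 + v0)‖ ^ 2 at e6
    change _ = ‖B (v1 + v0)‖ ^ 2 + ∑ r, ‖P (v1 + v0) r‖ ^ 2 at e5
    linarith

theorem fullify [DecidableEq X] {F : Finset X}
    (hT : ∀ i ∈ F, ∀ G : X → Submodule ℂ ((Fin m → ℂ) × (Fin m → ℂ)),
      Adm lam kap (F.erase i) G → Adm (Qf lam i) (Qf kap i) (F.erase i) G)
    (h : Adm lam kap F G) : ∃ G', G ≤ G' ∧ Adm lam kap F G' ∧ ∀ i ∈ F, Full (G' i) := by
  have : ∀ S : Finset X, S ⊆ F → ∃ G', G ≤ G' ∧ Adm lam kap F G' ∧ ∀ i ∈ S, Full (G' i) := by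
    intro S
    induction S using Finset.induction_on with
    | empty => exact fun _ => ⟨G, le_rfl, h, by simp⟩
    | insert i S _ ih =>
      intro hS
      obtain ⟨G', h1, h2, h3⟩ := ih ((Finset.subset_insert _ _).trans hS)
      have hiF := hS (Finset.mem_insert_self _ _)
      obtain ⟨g, g1, g2, g3⟩ := ext_step (Finset.notMem_erase i F)
        (by rwa [Finset.insert_erase hiF]) (hT i hiF G' (h2.mono (Finset.erase_subset _ _)))
      rw [Finset.insert_erase hiF] at g3
      refine ⟨Function.update G' i g, h1.trans fun j => ?_, g3, fun j hj => ?_⟩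
      · by_cases e : j = i
        · subst e; simpa using g1
        · simp [Function.update_of_ne e]
      · by_cases e : j = i
        · subst e; simpa using g2
        · rw [Function.update_of_ne e]
          exact h3 j ((Finset.mem_insert.1 hj).resolve_left e)
  exact this F le_rfl

theorem Full.section {g : Submodule ℂ ((Fin m → ℂ) × (Fin m → ℂ))} (h : Full g) :
    ∃ W : Matrix (Fin m) (Fin m) ℂ, ∀ η, (η, Wᴴ *ᵥ η) ∈ g := by
  obtain ⟨s, hs⟩ := LinearMap.exists_rightInverse_of_surjective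
    ((LinearMap.fst ℂ _ _).comp g.subtype) (LinearMap.range_eq_top.2 fun η => by
      obtain ⟨ω, hω⟩ := h η
      exact ⟨⟨_, hω⟩, rfl⟩)
  refine ⟨(LinearMap.toMatrix' ((LinearMap.snd ℂ _ _).comp (g.subtype.comp s)))ᴴ, fun η => ?_⟩
  rw [conjTranspose_conjTranspose, LinearMap.toMatrix'_mulVec]
  have h1 : (s η).1.1 = η := LinearMap.congr_fun hs η
  have h2 := (s η).2
  convert h2 using 1
  exact Prod.ext h1.symm rfl

end Pool.Agent.H.MP_e3a8c8_an
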