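import Mathlib

set_option autoImplicit false
open scoped ComplexOrder
open Matrix

namespace Pool.Agent.H.MP_e3a8c8_an

/-- the block matrix with blocks `l i j • 1 - k i j • W i * (W j)ᴴ` -/
def Pick {ι : Type*} {N : ℕ} (k l : Matrix ι ι ℂ) (W : ι → Matrix (Fin N) (Fin N) ℂ) :
    Matrix (ι × Fin N) (ι × Fin N) ℂ :=
  of fun p q => (l p.1 q.1 • (1 : Matrix (Fin N) (Fin N) ℂ) - k p.1 q.1 • (W p.1 * (W q.1)ᴴ)) p.2 q.2

/-- complete Pick pairs -/
def CPpair {X : Type*} (k l : Matrix X X ℂ) : Prop :=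
  ∀ n N : ℕ, 1 ≤ n → 1 ≤ N → ∀ (z : Fin n → X) (W : Fin n → Matrix (Fin N) (Fin N) ℂ),
    (Pick (k.submatrix z z) (l.submatrix z z) W).PosSemidef →
      ∃ Φ : X → Matrix (Fin N) (Fin N) ℂ, (Pick k l Φ).PosSemidef ∧ ∀ i, Φ (z i) = W i

open Classical in
/-- the kernel `k^z` -/
noncomputable def compress {X : Type*} (k : Matrix X X ℂ) (z : X) : Matrix X X ℂ :=
  if k z z = 0 then k else of fun x y => k x y - k x z * k z y / k z z

/-- existence of a Shimorin certificate -/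
def HasCert {X : Type*} (k l : Matrix X X ℂ) : Prop :=
  ∃ p : X → Matrix X X ℂ, ∀ z, (p z).PosSemidef ∧ (compress l z - p z ⊙ l).PosSemidef ∧
    (p z ⊙ k - compress k z).PosSemidef

end Pool.Agent.H.MP_e3a8c8_an
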