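import Mathlib
import Pool.Agent.H.MP_e3a8c8_an.B
import Pool.Agent.H.MP_e3a8c8_an.Defs

set_option autoImplicit false
open scoped InnerProductSpace ComplexConjugate ComplexOrder
open Matrix

namespace Pool.Agent.H.MP_e3a8c8_an

variable {X : Type*} {L K : Type*} [NormedAddCommGroup L] [InnerProductSpace ℂ L]
  [NormedAddCommGroup K] [InnerProductSpace ℂ K] {m : ℕ}
  {lam : X → L} {kap : X → K} {k l : Matrix X X ℂ}

theorem compress_apply (k : Matrix X X ℂ) (z x y : X) :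
    compress k z x y = k x y - k x z * k z y / k z z := by
  unfold compress
  split_ifs with h
  · simp [h]
  · rfl

theorem gram_Q (hl : ∀ x y, ⟪lam x, lam y⟫_ℂ = l x y) (z x y : X) :
    ⟪Qf lam z x, Qf lam z y⟫_ℂ = compress l z x y := by
  rw [compress_apply, Qf, Qf, inner_QQ, hl, hl, hl, hl]

theorem gram_herm (hl : ∀ x y, ⟪lam x, lam y⟫_ℂ = l x y) : l.IsHermitian := by
  ext x y
  rw [conjTranspose_apply, ← hl, ← hl, Complex.star_def, inner_conj_symm]

theorem form_gram (hl : ∀ x y, ⟪lam x, lam y⟫_ℂ = l x y) (F : Finset X) (c : X → ℂ) :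
    form F l c = ((‖∑ j ∈ F, c j • lam j‖ ^ 2 : ℝ) : ℂ) := by
  rw [Complex.ofReal_pow, ← Complex.coe_algebraMap, ← inner_self_eq_norm_sq_to_K (𝕜 := ℂ),
    sum_inner]
  refine Finset.sum_congr rfl fun i _ => ?_
  rw [inner_sum]
  refine Finset.sum_congr rfl fun j _ => ?_
  rw [inner_smul_left, inner_smul_right, hl]
  ring

theorem tens_sq (hl : ∀ x y, ⟪lam x, lam y⟫_ℂ = l x y) (F : Finset X) (ξ : X → Fin m → ℂ) :
    ((‖tens F lam ξ‖ ^ 2 : ℝ) : ℂ) = ∑ r, form F l fun j => ξ j r := by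
  rw [PiLp.norm_sq_eq_of_L2, Complex.ofReal_sum]
  exact Finset.sum_congr rfl fun r _ => by rw [form_gram hl, tens_apply]

theorem form_pick (k l : Matrix X X ℂ) (W : X → Matrix (Fin m) (Fin m) ℂ) (F : Finset X)
    (ξ : X → Fin m → ℂ) :
    form (F ×ˢ Finset.univ) (Pick k l W) (fun p => ξ p.1 p.2) =
      (∑ r, form F l fun j => ξ j r) - ∑ r, form F k fun j => ((W j)ᴴ *ᵥ ξ j) r := by
  unfold form
  rw [Finset.sum_comm (s := Finset.univ), Finset.sum_comm (s := Finset.univ),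
    ← Finset.sum_sub_distrib, Finset.sum_product]
  refine Finset.sum_congr rfl fun i _ => ?_
  simp only [Finset.sum_product]
  rw [Finset.sum_comm, Finset.sum_comm (s := Finset.univ) (t := F),
    Finset.sum_comm (s := Finset.univ) (t := F), ← Finset.sum_sub_distrib]
  refine Finset.sum_congr rfl fun j _ => ?_
  simp only [Pick, of_apply, Matrix.sub_apply, Matrix.smul_apply, smul_eq_mul, mul_sub, sub_mul,
    Finset.sum_sub_distrib]
  congr 1
  · refine Finset.sum_congr rfl fun r _ => ?_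
    simp [one_apply]
  · simp only [mul_apply, mulVec, dotProduct, conjTranspose_apply, map_sum, map_mul,
      Complex.star_def, Complex.conj_conj, Finset.mul_sum, Finset.sum_mul]
    symm
    rw [Finset.sum_comm]
    refine (Finset.sum_congr rfl fun s _ => Finset.sum_comm).trans ?_
    rw [Finset.sum_comm]
    refine Finset.sum_congr rfl fun r _ => Finset.sum_congr rfl fun s _ =>
      Finset.sum_congr rfl fun t _ => ?_
    ring

theorem pick_herm (hk : k.IsHermitian) (hl : l.IsHermitian) (W : X → Matrix (Fin m) (Fin m) ℂ) :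
    (Pick k l W).IsHermitian := by
  ext ⟨i, r⟩ ⟨j, s⟩
  simp only [conjTranspose_apply, Pick, of_apply, Matrix.sub_apply, Matrix.smul_apply, smul_eq_mul, star_sub,
    star_mul', hk.apply, hl.apply]
  rw [← conjTranspose_apply, ← conjTranspose_apply, conjTranspose_one, conjTranspose_mul,
    conjTranspose_conjTranspose]

theorem pick_iff (hl : ∀ x y, ⟪lam x, lam y⟫_ℂ = l x y) (hk : ∀ x y, ⟪kap x, kap y⟫_ℂ = k x y)
    (W : X → Matrix (Fin m) (Fin m) ℂ) : (Pick k l W).PosSemidef ↔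
      ∀ F ξ, ‖tens F kap fun j => (W j)ᴴ *ᵥ ξ j‖ ≤ ‖tens F lam ξ‖ := by
  classical
  have key : ∀ F ξ, (form (F ×ˢ Finset.univ) (Pick k l W) (fun p => ξ p.1 p.2)).re =
      ‖tens F lam ξ‖ ^ 2 - ‖tens F kap fun j => (W j)ᴴ *ᵥ ξ j‖ ^ 2 := by
    intro F ξ
    rw [form_pick, ← tens_sq hl, ← tens_sq hk, ← Complex.ofReal_sub, Complex.ofReal_re]
  refine ⟨fun h F ξ => ?_, fun h => psd_of (pick_herm (gram_herm hk) (gram_herm hl) W) fun c => ?_⟩
  · have := form_re_nonneg h (F ×ˢ Finset.univ) (fun p => ξ p.1 p.2)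
    rw [key, sub_nonneg] at this
    exact (sq_le_sq₀ (norm_nonneg _) (norm_nonneg _)).1 this
  · refine ⟨c.support.image Prod.fst ×ˢ Finset.univ, fun p hp => ?_, ?_⟩
    · exact Finset.mem_product.2 ⟨Finset.mem_image_of_mem _ hp, Finset.mem_univ _⟩
    · have := key (c.support.image Prod.fst) fun x r => c (x, r)
      simp only [Prod.mk.eta] at this
      rw [this, sub_nonneg]
      exact pow_le_pow_left₀ (norm_nonneg _) (h _ _) 2

theorem tens_fiber {Y : Type*} [DecidableEq X] (F : Finset X) (lam : X → L) (z : Y → X)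
    (hz : ∀ y, z y ∈ F) (S : Finset Y) (ξ : Y → Fin m → ℂ) :
    tens S (fun y => lam (z y)) ξ = tens F lam fun x => ∑ y ∈ S with z y = x, ξ y := by
  ext r
  rw [tens_apply, tens_apply, ← Finset.sum_fiberwise_of_maps_to (g := z) (t := F)
    (fun y _ => hz y)]
  refine Finset.sum_congr rfl fun x _ => ?_
  rw [Finset.sum_apply, Finset.sum_smul]
  exact Finset.sum_congr rfl fun y hy => by rw [(Finset.mem_filter.1 hy).2]

theorem pick_sub (hl : ∀ x y, ⟪lam x, lam y⟫_ℂ = l x y) (hk : ∀ x y, ⟪kap x, kap y⟫_ℂ = k x y)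
    (W : X → Matrix (Fin m) (Fin m) ℂ) (F : Finset X)
    (h : ∀ ξ, ‖tens F kap fun j => (W j)ᴴ *ᵥ ξ j‖ ≤ ‖tens F lam ξ‖) {Y : Type*} (z : Y → X)
    (hz : ∀ y, z y ∈ F) :
    (Pick (k.submatrix z z) (l.submatrix z z) fun y => W (z y)).PosSemidef := by
  classical
  refine (pick_iff (lam := fun y => lam (z y)) (kap := fun y => kap (z y))
    (fun x y => hl _ _) (fun x y => hk _ _) _).2 fun S ξ => ?_
  rw [tens_fiber F lam z hz, tens_fiber F kap z hz]
  convert h _ using 3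
  funext x
  rw [mulVec_sum]
  exact Finset.sum_congr rfl fun y hy => by rw [(Finset.mem_filter.1 hy).2]

/-- the graph of `Wᴴ` -/
def gr (W : Matrix (Fin m) (Fin m) ℂ) : Submodule ℂ ((Fin m → ℂ) × (Fin m → ℂ)) :=
  (Matrix.toLin' Wᴴ).graph

theorem mem_gr (W : Matrix (Fin m) (Fin m) ℂ) (η ω : Fin m → ℂ) :
    (η, ω) ∈ gr W ↔ ω = Wᴴ *ᵥ η := by
  simp [gr]

theorem tcp (hl : ∀ x y, ⟪lam x, lam y⟫_ℂ = l x y) (hk : ∀ x y, ⟪kap x, kap y⟫_ℂ = k x y)
    (hCP : CPpair k l) (hm : 1 ≤ m) (F : Finset X) : ∀ z ∉ F,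
      ∀ G : X → Submodule ℂ ((Fin m → ℂ) × (Fin m → ℂ)),
      Adm lam kap F G → Adm (Qf lam z) (Qf kap z) F G := by
  classical
  induction F using Finset.strongInduction with
  | H F ih =>
  intro z hz G hG
  rcases F.eq_empty_or_nonempty with rfl | hF
  · intro ξ ζ _
    exact norm_le_of fun r => by simp [tens_apply]
  obtain ⟨G', h1, h2, h3⟩ := fullify
    (fun i hi => ih _ (Finset.erase_ssubset hi) i (Finset.notMem_erase i F)) hG
  have : ∀ j, ∃ W : Matrix (Fin m) (Fin m) ℂ, j ∈ F → ∀ η, (η, Wᴴ *ᵥ η) ∈ G' j := fun j => by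
    by_cases hj : j ∈ F
    · exact (h3 j hj).section.imp fun W h _ => h
    · exact ⟨0, fun h => absurd h hj⟩
  choose W hW using this
  obtain ⟨Φ, hΦ, hΦW⟩ := hCP F.card m hF.card_pos hm (fun i => (F.equivFin.symm i).1) _
    (pick_sub hl hk W F (fun ξ => h2 _ _ fun j hj => hW j hj _) _
      (fun i => (F.equivFin.symm i).2))
  have hW' : ∀ j ∈ F, Φ j = W j := fun j hj => by simpa using hΦW (F.equivFin ⟨j, hj⟩)
  have h4 : Adm lam kap (insert z F) fun j => gr (Φ j) := fun ξ ζ h => by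
    rw [tens_congr _ kap (ξ' := fun j => (Φ j)ᴴ *ᵥ ξ j) fun j hj => (mem_gr _ _ _).1 (h j hj)]
    exact (pick_iff hl hk Φ).1 hΦ _ _
  have h5 := final_step hz h4 fun η => ⟨_, (mem_gr _ _ _).2 rfl⟩
  intro ξ ζ hξ
  have h6 := h2 0 (ζ - fun j => (Φ j)ᴴ *ᵥ ξ j) fun j hj => by
    have := (G' j).sub_mem (h1 j (hξ j hj)) (hW j hj (ξ j))
    simpa [hW' j hj] using this
  rw [map_zero, norm_zero, norm_le_zero_iff, map_sub, sub_eq_zero] at h6
  refine le_trans (norm_le_of fun r => le_of_eq ?_)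
    (h5 ξ (fun j => (Φ j)ᴴ *ᵥ ξ j) fun j _ => (mem_gr _ _ _).2 rfl)
  rw [tens_Q, tens_Q, h6]

end Pool.Agent.H.MP_e3a8c8_an
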