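import Mathlib
import Pool.Agent.H.MP_e3a8c8_an.C

set_option autoImplicit false
open scoped InnerProductSpace ComplexConjugate ComplexOrder
open Matrix

namespace Pool.Agent.H.MP_e3a8c8_an

variable {X : Type*} {L K : Type*} [NormedAddCommGroup L] [InnerProductSpace ℂ L]
  [NormedAddCommGroup K] [InnerProductSpace ℂ K] {m : ℕ}
  {lam : X → L} {kap : X → K} {k l : Matrix X X ℂ}

theorem form_add (F : Finset X) (M N : Matrix X X ℂ) (c : X → ℂ) :
    form F (M + N) c = form F M c + form F N c := by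
  simp [form, mul_add, add_mul, Finset.sum_add_distrib]

theorem form_smul (F : Finset X) (t : ℂ) (M : Matrix X X ℂ) (c : X → ℂ) :
    form F (t • M) c = t * form F M c := by
  simp only [form, Matrix.smul_apply, smul_eq_mul, Finset.mul_sum]
  exact Finset.sum_congr rfl fun _ _ => Finset.sum_congr rfl fun _ _ => by ring

theorem form_neg (F : Finset X) (M : Matrix X X ℂ) (c : X → ℂ) :
    form F (-M) c = -form F M c := by
  simp [form]

theorem form_scale (F : Finset X) (t : ℝ) (M : Matrix X X ℂ) (c : X → ℂ) :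
    form F M (fun j => t * c j) = (t ^ 2 : ℝ) * form F M c := by
  simp only [form, map_mul, Complex.conj_ofReal, Finset.mul_sum]
  exact Finset.sum_congr rfl fun _ _ => Finset.sum_congr rfl fun _ _ => by push_cast; ring

/-- rank one kernel -/
def dyad (v : X → ℂ) : Matrix X X ℂ := of fun x y => conj (v x) * v y

theorem dyad_psd (v : X → ℂ) : (dyad v).PosSemidef := by
  have h : ∀ x y, ⟪v x, v y⟫_ℂ = dyad v x y := fun x y => by simp [dyad, mul_comm]
  refine psd_of (gram_herm h) fun c => ⟨_, le_rfl, ?_⟩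
  rw [form_gram h, Complex.ofReal_re]
  positivity

theorem form_dyad (F : Finset X) (v : X → ℂ) (M : Matrix X X ℂ) (c : X → ℂ) :
    form F (dyad v ⊙ M) c = form F M (fun j => v j * c j) := by
  simp only [form, dyad, hadamard_apply, of_apply, map_mul]
  exact Finset.sum_congr rfl fun _ _ => Finset.sum_congr rfl fun _ _ => by ring

theorem weighted (hl : ∀ x y, ⟪lam x, lam y⟫_ℂ = l x y) (hk : ∀ x y, ⟪kap x, kap y⟫_ℂ = k x y)
    (F : Finset X) (b : Fin m → Bool) (c : Fin m → X → ℂ) (τ : Fin m → ℝ) (hτ : ∀ a, 0 ≤ τ a)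
    (v : X → ℂ) :
    ‖tens F lam fun j a => v j * if b a then (√(τ a) : ℂ) * c a j else 0‖ ^ 2 -
      ‖tens F kap fun j a => v j * if b a then 0 else (√(τ a) : ℂ) * c a j‖ ^ 2 =
      ∑ a, τ a * (form F (if b a then l else -k) fun j => v j * c a j).re := by
  have h1 := congrArg Complex.re (tens_sq hl F
    fun j a => v j * if b a then (√(τ a) : ℂ) * c a j else 0)
  have h2 := congrArg Complex.re (tens_sq hk F
    fun j a => v j * if b a then 0 else (√(τ a) : ℂ) * c a j)
  rw [Complex.ofReal_re, Complex.re_sum] at h1 h2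
  rw [h1, h2, ← Finset.sum_sub_distrib]
  refine Finset.sum_congr rfl fun a _ => ?_
  have e : ∀ M : Matrix X X ℂ, (form F M fun j => v j * ((√(τ a) : ℂ) * c a j)).re =
      τ a * (form F M fun j => v j * c a j).re := by
    intro M
    have := form_scale F (√(τ a)) M fun j => v j * c a j
    rw [Real.sq_sqrt (hτ a)] at this
    rw [← Complex.re_ofReal_mul, ← this]
    congr 2
    funext j
    ring
  have z0 : ∀ M : Matrix X X ℂ, form F M (fun _ => 0) = 0 := fun M => by simp [form]
  cases h : b a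
  · simp only [Bool.false_eq_true, if_false, mul_zero, z0, e, form_neg]
    simp
  · simp only [if_true, mul_zero, z0, e]
    simp

theorem approx (hl : ∀ x y, ⟪lam x, lam y⟫_ℂ = l x y) (hk : ∀ x y, ⟪kap x, kap y⟫_ℂ = k x y)
    (z : X) (F : Finset X) (hT : ∀ G : X → Submodule ℂ ((Fin m → ℂ) × (Fin m → ℂ)),
      Adm lam kap F G → Adm (Qf lam z) (Qf kap z) F G)
    (b : Fin m → Bool) (c : Fin m → X → ℂ) (ε : ℝ) (hε : 0 < ε) :
    ∃ p : Matrix X X ℂ, p.PosSemidef ∧ ∀ a, -ε <
      (form F (if b a then compress l z - p ⊙ l else p ⊙ k - compress k z) (c a)).re := by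
  by_contra! hcon
  let φ0 : Fin m → ℝ := fun a => (form F (if b a then compress l z else -compress k z) (c a)).re
  let ψ : Matrix X X ℂ → Fin m → ℝ := fun p a => (form F (p ⊙ if b a then l else -k) (c a)).re
  have hφ : ∀ (p : Matrix X X ℂ) a,
      (form F (if b a then compress l z - p ⊙ l else p ⊙ k - compress k z) (c a)).re =
        φ0 a - ψ p a := by
    intro p a
    simp only [φ0, ψ]
    rw [← Complex.sub_re, sub_eq_add_neg (form _ _ _), ← form_neg, ← form_add]
    congr 2
    split_ifs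
    · rw [sub_eq_add_neg]
    · ext x y; simp; ring
  have hψ : ∀ (s t : ℝ) (p q : Matrix X X ℂ),
      ψ ((s : ℂ) • p + (t : ℂ) • q) = s • ψ p + t • ψ q := by
    intro s t p q
    funext a
    simp only [ψ, add_hadamard, smul_hadamard, form_add, form_smul, Complex.add_re,
      Complex.re_ofReal_mul, Pi.add_apply, Pi.smul_apply, smul_eq_mul]
  obtain ⟨f, u, h1, h2⟩ := geometric_hahn_banach_open
    (s := Set.univ.pi fun _ : Fin m => Set.Ioi (-ε))
    (t := {y | ∃ p : Matrix X X ℂ, p.PosSemidef ∧ y = φ0 - ψ p})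
    (convex_pi fun _ _ => convex_Ioi _) (isOpen_set_pi Set.finite_univ fun _ _ => isOpen_Ioi)
    (by
      rintro _ ⟨p, hp, rfl⟩ _ ⟨q, hq, rfl⟩ s t hs ht hst
      refine ⟨(s : ℂ) • p + (t : ℂ) • q, (hp.smul (Complex.zero_le_real.2 hs)).add
        (hq.smul (Complex.zero_le_real.2 ht)), ?_⟩
      rw [hψ, smul_sub, smul_sub, sub_add_sub_comm, ← add_smul, hst, one_smul])
    (by
      rw [Set.disjoint_left]
      rintro _ hy ⟨p, hp, rfl⟩
      obtain ⟨a, ha⟩ := hcon p hp
      rw [hφ] at ha
      exact absurd (hy a (Set.mem_univ _)) (not_lt.2 ha))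
  let τ : Fin m → ℝ := fun a => -f (Pi.single a 1)
  have hf : ∀ y, f y = -∑ a, τ a * y a := by
    intro y
    conv_lhs => rw [pi_eq_sum_univ' y]
    simp [τ, mul_comm]
  have hu : 0 < u := by simpa using h1 0 fun a _ => by simpa using hε
  have big : ∀ x y : ℝ, (∀ t : ℝ, 0 ≤ t → x ≤ t * y) → 0 ≤ y := by
    intro x y h
    by_contra! hy
    have := h ((|x| + 1) / -y) (div_nonneg (by positivity) (by linarith))
    rw [div_neg, neg_mul, div_mul_cancel₀ _ hy.ne] at this
    linarith [neg_abs_le x]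
  have hτ : ∀ a, 0 ≤ τ a := fun a => big (-u) _ fun t ht => by
    have := h1 (t • Pi.single a 1) fun a' _ => by
      have : 0 ≤ (t • Pi.single a 1 : Fin m → ℝ) a' := by
        simp only [Pi.smul_apply, Pi.single_apply, smul_eq_mul]
        split_ifs <;> simp [ht]
      exact lt_of_lt_of_le (by linarith) this
    rw [map_smul, smul_eq_mul] at this
    simp only [τ]
    linarith
  have hv : ∀ v, 0 ≤ ∑ a, τ a * ψ (dyad v) a := fun v => big (u - f φ0) _ fun t ht => by
    have := h2 _ ⟨(t : ℂ) • dyad v + ((0 : ℝ) : ℂ) • dyad v,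
      ((dyad_psd v).smul (Complex.zero_le_real.2 ht)).add
        ((dyad_psd v).smul (Complex.zero_le_real.2 le_rfl)), rfl⟩
    rw [hψ, zero_smul, add_zero, map_sub, map_smul, hf (ψ _), smul_eq_mul] at this
    linarith
  have h0 := h2 _ ⟨((0 : ℝ) : ℂ) • 0 + ((0 : ℝ) : ℂ) • 0, by simpa using PosSemidef.zero, rfl⟩
  rw [hψ, zero_smul, add_zero, sub_zero, hf] at h0
  let U : X → Fin m → ℂ := fun j a => if b a then (√(τ a) : ℂ) * c a j else 0
  let W : X → Fin m → ℂ := fun j a => if b a then 0 else (√(τ a) : ℂ) * c a j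
  have hA : Adm lam kap F fun j => ℂ ∙ (U j, W j) := by
    intro ξ ζ h
    have : ∀ j, ∃ v : ℂ, j ∈ F → v • (U j, W j) = (ξ j, ζ j) := fun j => by
      by_cases hj : j ∈ F
      · exact (Submodule.mem_span_singleton.1 (h j hj)).imp fun v h _ => h
      · exact ⟨0, fun h => absurd h hj⟩
    choose v hv' using this
    rw [tens_congr F lam (ξ' := fun j a => v j * U j a)
        (fun j hj => (congrArg Prod.fst (hv' j hj)).symm),
      tens_congr F kap (ξ' := fun j a => v j * W j a)
        (fun j hj => (congrArg Prod.snd (hv' j hj)).symm)]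
    refine (sq_le_sq₀ (norm_nonneg _) (norm_nonneg _)).1 (sub_nonneg.1 ?_)
    rw [weighted hl hk F b c τ hτ v]
    simpa only [ψ, form_dyad] using hv v
  have h3 := sub_nonneg.2 (pow_le_pow_left₀ (norm_nonneg _)
    (hT _ hA (fun j a => 1 * U j a) (fun j a => 1 * W j a) fun j _ => by
      simp) 2)
  rw [weighted (gram_Q hl z) (gram_Q hk z) F b c τ hτ fun _ => 1] at h3
  simp only [one_mul] at h3
  linarith

theorem tcp' (hl : ∀ x y, ⟪lam x, lam y⟫_ℂ = l x y) (hk : ∀ x y, ⟪kap x, kap y⟫_ℂ = k x y)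
    (hCP : CPpair k l) (hm : 1 ≤ m) (F : Finset X) (z : X)
    (G : X → Submodule ℂ ((Fin m → ℂ) × (Fin m → ℂ))) (h : Adm lam kap F G) :
    Adm (Qf lam z) (Qf kap z) F G := by
  classical
  by_cases hz : z ∈ F
  · intro ξ ζ hξ
    have := tcp hl hk hCP hm (F.erase z) z (Finset.notMem_erase _ _) G
      (h.mono (Finset.erase_subset _ _)) ξ ζ fun j hj => hξ j (Finset.mem_of_mem_erase hj)
    have e1 : tens F (Qf lam z) ξ = tens (F.erase z) (Qf lam z) ξ := by
      ext r
      conv_lhs => rw [← Finset.insert_erase hz]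
      rw [tens_insert (Finset.notMem_erase _ _), Qf, Q_self, smul_zero, zero_add]
    have e2 : tens F (Qf kap z) ζ = tens (F.erase z) (Qf kap z) ζ := by
      ext r
      conv_lhs => rw [← Finset.insert_erase hz]
      rw [tens_insert (Finset.notMem_erase _ _), Qf, Q_self, smul_zero, zero_add]
    rwa [e1, e2]
  · exact tcp hl hk hCP hm F z hz G h

theorem entry_le {p : Matrix X X ℂ} (hp : p.PosSemidef) (x y : X) (C : ℝ) (hx : (p x x).re ≤ C)
    (hy : (p y y).re ≤ C) : ‖p x y‖ ≤ C := by
  obtain ⟨M, _, _, μ, h⟩ := exists_gram hp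
  have e : ∀ x, (p x x).re = ‖μ x‖ ^ 2 := fun x => by
    rw [← h, ← inner_self_eq_norm_sq (𝕜 := ℂ)]; rfl
  rw [e] at hx hy
  rw [← h]
  refine (norm_inner_le_norm _ _).trans ?_
  nlinarith [sq_nonneg (‖μ x‖ - ‖μ y‖)]

theorem form_cont (F : Finset X) (c : X → ℂ) :
    Continuous fun M : X → X → ℂ => (form F (of M) c).re := by
  unfold form
  simp only [of_apply]
  fun_prop

theorem form_supset {F : Finset X} (M : Matrix X X ℂ) (c : X →₀ ℂ) (h : c.support ⊆ F) :
    form F M c = form c.support M c := by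
  rw [← form_supp F M c h, form_supp c.support M c le_rfl]

theorem psd_closed : IsClosed {p : X → X → ℂ | (of p).PosSemidef} := by
  have : {p : X → X → ℂ | (of p).PosSemidef} = (⋂ x, ⋂ y, {p | conj (p y x) = p x y}) ∩
      ⋂ c : X →₀ ℂ, {p | 0 ≤ (form c.support (of p) c).re} := by
    ext p
    simp only [Set.mem_ofPred_eq, Set.mem_inter_iff, Set.mem_iInter]
    exact ⟨fun h => ⟨fun x y => h.1.apply x y, fun c => form_re_nonneg h _ _⟩,
      fun h => psd_of (by ext x y; exact h.1 x y) fun c => ⟨_, le_rfl, h.2 c⟩⟩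
  rw [this]
  refine (isClosed_iInter fun x => isClosed_iInter fun y => isClosed_eq ?_ ?_).inter
    (isClosed_iInter fun c => isClosed_le continuous_const (form_cont _ _))
  · fun_prop
  · fun_prop

theorem cert_of_cp (hk : k.PosSemidef) (hl : l.PosSemidef) (hl0 : ∀ x, l x x ≠ 0)
    (hCP : CPpair k l) : HasCert k l := by
  classical
  obtain ⟨L, _, _, lam, hlam⟩ := exists_gram hl
  obtain ⟨K, _, _, kap, hkap⟩ := exists_gram hk
  have hpos : ∀ x, 0 < (l x x).re ∧ l x x = (l x x).re := fun x => by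
    have h := Complex.le_def.1 (hl.diag_nonneg (i := x))
    have h2 : l x x = (l x x).re := Complex.ext rfl (by simpa using h.2.symm)
    refine ⟨lt_of_le_of_ne h.1 fun e => hl0 x ?_, h2⟩
    rw [h2, ← e]; rfl
  suffices ∀ z, ∃ p : Matrix X X ℂ, p.PosSemidef ∧ (compress l z - p ⊙ l).PosSemidef ∧
      (p ⊙ k - compress k z).PosSemidef by
    choose p hp using this
    exact ⟨p, hp⟩
  intro z
  let M : Bool → (X → X → ℂ) → Matrix X X ℂ := fun b p =>
    if b then compress l z - of p ⊙ l else of p ⊙ k - compress k z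
  have hcomp : IsCompact ((Set.univ.pi fun _ : X => Set.univ.pi fun _ : X =>
      Metric.closedBall (0 : ℂ) 2) ∩ {p : X → X → ℂ | (of p).PosSemidef}) :=
    (isCompact_univ_pi fun _ => isCompact_univ_pi fun _ => isCompact_closedBall _ _).inter_right
      psd_closed
  obtain ⟨p, ⟨-, hp⟩, hp2⟩ := hcomp.inter_iInter_nonempty
    (fun t : Bool × (X →₀ ℂ) × ℕ =>
      {p | -(1 / ((t.2.2 : ℝ) + 1)) ≤ (form t.2.1.support (M t.1 p) t.2.1).re})
    (fun t => isClosed_le continuous_const ((form_cont t.2.1.support t.2.1).comp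
      (f := fun (p : X → X → ℂ) x y => M t.1 p x y) (by
      refine continuous_pi fun x => continuous_pi fun y => ?_
      rcases t with ⟨_ | _, c, n⟩
      · simp only [M, Bool.false_eq_true, if_false, Matrix.sub_apply, hadamard_apply, of_apply]
        fun_prop
      · simp only [M, if_true, Matrix.sub_apply, hadamard_apply, of_apply]
        fun_prop) :))
    (fun u => by
      let F : Finset X := u.biUnion fun t => t.2.1.support
      obtain ⟨ε, hε, hε1, hε2⟩ : ∃ ε : ℝ, 0 < ε ∧ (∀ t ∈ u, ε < 1 / ((t.2.2 : ℝ) + 1)) ∧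
          ∀ x ∈ F, ε < (l x x).re := by
        have h1 : ∀ᶠ ε : ℝ in nhds 0, ∀ t ∈ u, ε < 1 / ((t.2.2 : ℝ) + 1) :=
          (Filter.eventually_all_finset u).2 fun t _ => gt_mem_nhds (by positivity)
        have h2 : ∀ᶠ ε : ℝ in nhds 0, ∀ x ∈ F, ε < (l x x).re :=
          (Filter.eventually_all_finset F).2 fun x _ => gt_mem_nhds (hpos x).1
        obtain ⟨ε, h, h'⟩ := (((h1.and h2).filter_mono nhdsWithin_le_nhds).and
          (self_mem_nhdsWithin (a := (0 : ℝ)) (s := Set.Ioi 0))).exists
        exact ⟨ε, h', h⟩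
      let T : List (Bool × (X →₀ ℂ)) := (true, 0) :: (u.toList.map (fun t => (t.1, t.2.1)) ++
        F.toList.map fun x => (true, Finsupp.single x 1))
      obtain ⟨q, hq, hq2⟩ := approx (m := T.length) hlam hkap z F
        (tcp' hlam hkap hCP (by simp [T]) F z) (fun a => (T.get a).1) (fun a => (T.get a).2) ε hε
      have hT : ∀ t ∈ T, -ε < (form F (M t.1 q) t.2).re := fun t ht => by
        obtain ⟨a, rfl⟩ := List.mem_iff_get.1 ht
        exact hq2 a
      have hd : ∀ x ∈ F, (q x x).re ≤ 2 := fun x hx => by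
        have h1 := hT (true, Finsupp.single x 1) (by
          simp only [T, List.mem_cons, List.mem_append, List.mem_map, Finset.mem_toList]
          exact Or.inr (Or.inr ⟨x, hx, rfl⟩))
        rw [form_supset _ _ (Finsupp.support_single_subset.trans (by simpa using hx)),
          Finsupp.support_single _ one_ne_zero] at h1
        have h2 : (compress l z x x).re ≤ (l x x).re := by
          rw [← gram_Q hlam, ← hlam]
          exact (inner_self_eq_norm_sq (𝕜 := ℂ) _).le.trans
            ((pow_le_pow_left₀ (norm_nonneg _) (norm_Q _ _) 2).trans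
              (inner_self_eq_norm_sq (𝕜 := ℂ) _).ge)
        have h3 : (form {x} (M true q) (Finsupp.single x 1)).re =
            (compress l z x x).re - (q x x).re * (l x x).re := by
          simp only [form, M, Finset.sum_singleton, Finsupp.single_eq_same, map_one, one_mul,
            mul_one, if_true, Matrix.sub_apply, hadamard_apply, of_apply, Complex.sub_re]
          rw [(hpos x).2, Complex.re_mul_ofReal, Complex.ofReal_re]
        rw [h3] at h1
        have := hε2 x hx
        nlinarith [(hpos x).1]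
      let q' := dyad (fun x => if x ∈ F then (1 : ℂ) else 0) ⊙ q
      have hq' : q'.PosSemidef := (dyad_psd _).hadamard hq
      have e : ∀ x y, q' x y = if x ∈ F ∧ y ∈ F then q x y else 0 := fun x y => by
        by_cases hx : x ∈ F <;> by_cases hy : y ∈ F <;> simp [q', dyad, hx, hy]
      refine ⟨q', ⟨fun x _ y _ => ?_, hq'⟩, ?_⟩
      · rw [mem_closedBall_zero_iff, e]
        split_ifs with h
        · exact entry_le hq x y 2 (hd x h.1) (hd y h.2)
        · simp
      · simp only [Set.mem_iInter, Set.mem_ofPred_eq]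
        intro t ht
        have h1 := hT (t.1, t.2.1) (by
          simp only [T, List.mem_cons, List.mem_append, List.mem_map, Finset.mem_toList]
          exact Or.inr (Or.inl ⟨t, ht, rfl⟩))
        have h2 : form F (M t.1 q') t.2.1 = form F (M t.1 q) t.2.1 := by
          refine Finset.sum_congr rfl fun x hx => Finset.sum_congr rfl fun y hy => ?_
          simp only [M]
          split_ifs <;> simp [e, hx, hy]
        rw [← form_supset (F := F) _ _ (Finset.subset_biUnion_of_mem (fun t => t.2.1.support) ht),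
          h2]
        linarith [hε1 t ht])
  have key : ∀ b (c : X →₀ ℂ), 0 ≤ (form c.support (M b p) c).re := fun b c => by
    refine le_of_tendsto' (f := fun n : ℕ => -(1 / ((n : ℝ) + 1))) (x := Filter.atTop) ?_
      fun n => Set.mem_iInter.1 hp2 (b, c, n)
    simpa using (tendsto_one_div_add_atTop_nhds_zero_nat (𝕜 := ℝ)).neg
  have hh : ∀ {A B : Matrix X X ℂ}, A.IsHermitian → B.IsHermitian → (A ⊙ B).IsHermitian := by
    intro A B hA hB
    ext x y
    simp [hA.apply, hB.apply]
  exact ⟨of p, hp, psd_of ((gram_herm (gram_Q hlam z)).sub (hh hp.1 hl.1))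
    fun c => ⟨_, le_rfl, key true c⟩, psd_of ((hh hp.1 hk.1).sub (gram_herm (gram_Q hkap z)))
    fun c => ⟨_, le_rfl, key false c⟩⟩

end Pool.Agent.H.MP_e3a8c8_an
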