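import Mathlib
import Pool.Agent.H.MP_e3a8c8_an.D

set_option autoImplicit false
open scoped InnerProductSpace ComplexConjugate ComplexOrder
open Matrix

namespace Pool.Agent.H.MP_e3a8c8_an

variable {X : Type*} {L K : Type*} [NormedAddCommGroup L] [InnerProductSpace ℂ L]
  [NormedAddCommGroup K] [InnerProductSpace ℂ K] {m : ℕ}
  {lam : X → L} {kap : X → K} {k l : Matrix X X ℂ}

theorem gram_psd (hl : ∀ x y, ⟪lam x, lam y⟫_ℂ = l x y) : l.PosSemidef :=
  psd_of (gram_herm hl) fun c => ⟨_, le_rfl, by rw [form_gram hl, Complex.ofReal_re]; positivity⟩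

theorem Adm.extend [DecidableEq X] {G : X → Submodule ℂ ((Fin m → ℂ) × (Fin m → ℂ))}
    {F : Finset X} (h : Adm lam kap F G) (S : Finset X) :
    Adm lam kap S fun j => if j ∈ F then G j else ⊥ := by
  intro ξ ζ hξ
  have h0 : ∀ j ∈ S, j ∉ S ∩ F → ξ j = 0 ∧ ζ j = 0 := fun j hj hj' => by
    have : j ∉ F := fun e => hj' (Finset.mem_inter.2 ⟨hj, e⟩)
    simpa [this] using hξ j hj
  have e1 : tens S lam ξ = tens (S ∩ F) lam ξ := by
    ext r
    rw [tens_apply, tens_apply, Finset.sum_subset Finset.inter_subset_left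
      fun j hj hj' => by simp [(h0 j hj hj').1]]
  have e2 : tens S kap ζ = tens (S ∩ F) kap ζ := by
    ext r
    rw [tens_apply, tens_apply, Finset.sum_subset Finset.inter_subset_left
      fun j hj hj' => by simp [(h0 j hj hj').2]]
  rw [e1, e2]
  refine h.mono Finset.inter_subset_right ξ ζ fun j hj => ?_
  simpa [(Finset.mem_inter.1 hj).2] using hξ j (Finset.mem_inter.1 hj).1

theorem cert_T (hl : ∀ x y, ⟪lam x, lam y⟫_ℂ = l x y) (hk : ∀ x y, ⟪kap x, kap y⟫_ℂ = k x y)
    (hC : HasCert k l) (F : Finset X) (z : X)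
    (G : X → Submodule ℂ ((Fin m → ℂ) × (Fin m → ℂ))) (h : Adm lam kap F G) :
    Adm (Qf lam z) (Qf kap z) F G := by
  classical
  obtain ⟨P, hP⟩ := hC
  obtain ⟨hp, hp1, hp2⟩ := hP z
  intro ξ0 ζ0 hξ0
  let ξ : X → Fin m → ℂ := fun j => if j ∈ F then ξ0 j else 0
  let ζ : X → Fin m → ℂ := fun j => if j ∈ F then ζ0 j else 0
  rw [tens_congr F _ (ξ := ξ0) (ξ' := ξ) fun j hj => by simp [ξ, hj],
    tens_congr F _ (ξ := ζ0) (ξ' := ζ) fun j hj => by simp [ζ, hj]]
  let M : Matrix X X ℂ := (∑ r, dyad (fun j => ξ j r) ⊙ l) + -∑ r, dyad (fun j => ζ j r) ⊙ k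
  have fsum : ∀ (S : Finset X) (N : Fin m → Matrix X X ℂ) (c : X → ℂ),
      form S (∑ r, N r) c = ∑ r, form S (N r) c := by
    intro S N c
    simp only [form, Matrix.sum_apply, Finset.mul_sum, Finset.sum_mul]
    symm
    rw [Finset.sum_comm]
    exact Finset.sum_congr rfl fun _ _ => Finset.sum_comm
  have hM : M.PosSemidef := by
    refine psd_of ((posSemidef_sum _ fun r _ => (dyad_psd _).hadamard (gram_psd hl)).1.add
      (posSemidef_sum _ fun r _ => (dyad_psd _).hadamard (gram_psd hk)).1.neg)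
      fun c => ⟨_, le_rfl, ?_⟩
    have h1 := h.extend c.support (fun j => c j • ξ j) (fun j => c j • ζ j) fun j _ => by
      by_cases hj : j ∈ F
      · simpa [ξ, ζ, hj] using (G j).smul_mem (c j) (hξ0 j hj)
      · simp [ξ, ζ, hj]
    have h2 := tens_sq hl c.support fun j => c j • ξ j
    have h3 := tens_sq hk c.support fun j => c j • ζ j
    simp only [Pi.smul_apply, smul_eq_mul, mul_comm (c _)] at h2 h3
    simp only [M, form_add, form_neg, fsum, form_dyad]
    rw [← h2, ← h3, ← sub_eq_add_neg, ← Complex.ofReal_sub, Complex.ofReal_re, sub_nonneg]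
    exact pow_le_pow_left₀ (norm_nonneg _) h1 2
  have h1 := form_re_nonneg (hp.hadamard hM) F fun _ => 1
  have e : P z ⊙ M = (∑ r, dyad (fun j => ξ j r) ⊙ (P z ⊙ l)) +
      -∑ r, dyad (fun j => ζ j r) ⊙ (P z ⊙ k) := by
    ext x y
    simp only [M, hadamard_apply, Matrix.add_apply, Matrix.neg_apply, Matrix.sum_apply, mul_add,
      mul_neg, Finset.mul_sum, mul_left_comm]
  simp only [e, form_add, form_neg, fsum, form_dyad, mul_one, Complex.add_re, Complex.neg_re,
    Complex.re_sum] at h1
  have h2 := congrArg Complex.re (tens_sq (gram_Q hl z) F ξ)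
  have h3 := congrArg Complex.re (tens_sq (gram_Q hk z) F ζ)
  rw [Complex.ofReal_re, Complex.re_sum] at h2 h3
  have h4 := Finset.sum_nonneg fun r (_ : r ∈ Finset.univ) => form_re_nonneg hp1 F fun j => ξ j r
  have h5 := Finset.sum_nonneg fun r (_ : r ∈ Finset.univ) => form_re_nonneg hp2 F fun j => ζ j r
  simp only [sub_eq_add_neg, form_add, form_neg, Complex.add_re, Complex.neg_re,
    Finset.sum_add_distrib, Finset.sum_neg_distrib] at h4 h5
  refine (sq_le_sq₀ (norm_nonneg _) (norm_nonneg _)).1 ?_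
  linarith

theorem tens_single [DecidableEq X] {S : Finset X} {j : X} (hj : j ∈ S) (lam : X → L)
    (η : Fin m → ℂ) (r : Fin m) : tens S lam (Pi.single j η) r = η r • lam j := by
  rw [tens_apply, Finset.sum_eq_single_of_mem j hj fun i _ hi => by simp [hi]]
  simp

theorem cp_of_cert (hk : k.PosSemidef) (hl : l.PosSemidef) (hk0 : ∀ x, k x x ≠ 0)
    (hC : HasCert k l) : CPpair k l := by
  classical
  obtain ⟨L, _, _, lam, hlam⟩ := exists_gram hl
  obtain ⟨K, _, _, kap, hkap⟩ := exists_gram hk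
  have hne : ∀ x, kap x ≠ 0 := fun x h => hk0 x (by rw [← hkap, h, inner_zero_left])
  intro n m hn _ z W hW
  have : Nonempty (Fin n) := ⟨⟨0, hn⟩⟩
  have hsing : ∀ {Y : Type _} [DecidableEq Y] (W : Y → Matrix (Fin m) (Fin m) ℂ) (i : Y)
      (η : Fin m → ℂ), (fun y => (W y)ᴴ *ᵥ (Pi.single i η : Y → Fin m → ℂ) y) =
        Pi.single i ((W i)ᴴ *ᵥ η) := by
    intro Y _ W i η
    funext y
    by_cases h : y = i
    · subst h; simp
    · simp [h]
  have hsing' : ∀ (W : Fin n → Matrix (Fin m) (Fin m) ℂ) (i : Fin n)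
      (η : Fin m → ℂ), (fun y => (W y)ᴴ *ᵥ (Pi.single i η : Fin n → Fin m → ℂ) y) =
        Pi.single i ((W i)ᴴ *ᵥ η) := by
    intro W i η
    funext y
    by_cases h : y = i
    · subst h; simp
    · simp [h]
  have hcons : ∀ i j, z i = z j → W i = W j := by
    intro i j e
    have key : ∀ η, (W i)ᴴ *ᵥ η = (W j)ᴴ *ᵥ η := by
      intro η
      have h1 := (pick_iff (lam := fun y => lam (z y)) (kap := fun y => kap (z y))
        (fun x y => hlam _ _) (fun x y => hkap _ _) W).1 hW Finset.univ
        (Pi.single i η - Pi.single j η)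
      have h2 : tens Finset.univ (fun y => lam (z y)) (Pi.single i η - Pi.single j η) = 0 := by
        ext r
        simp [tens_single, e]
      have h3 : (fun y => (W y)ᴴ *ᵥ (Pi.single i η - Pi.single j η : Fin n → Fin m → ℂ) y) =
          Pi.single i ((W i)ᴴ *ᵥ η) - Pi.single j ((W j)ᴴ *ᵥ η) := by
        rw [← hsing', ← hsing']
        funext y
        simp [mulVec_sub]
      rw [h2, norm_zero, norm_le_zero_iff, h3, map_sub, sub_eq_zero] at h1
      funext r
      have h4 := congrArg (fun v => v r) h1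
      simp only [tens_single (Finset.mem_univ _), e] at h4
      exact smul_left_injective ℂ (hne _) h4
    exact conjTranspose_injective (Matrix.toLin'.injective (LinearMap.ext key))
  let σ := Function.invFun z
  let F := Finset.univ.image z
  have hσ : ∀ x ∈ F, z (σ x) = x := fun x hx =>
    Function.invFun_eq (by simpa [F] using hx)
  have hA : Adm lam kap F fun j => gr (W (σ j)) := by
    intro ξ ζ h
    have h1 := (pick_iff (lam := fun y => lam (z (σ y))) (kap := fun y => kap (z (σ y)))
      (fun x y => hlam _ _) (fun x y => hkap _ _) fun j => W (σ j)).1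
      (hW.submatrix (Prod.map σ id)) F ξ
    rw [tens_congr _ kap (ξ' := fun j => (W (σ j))ᴴ *ᵥ ξ j) fun j hj => (mem_gr _ _ _).1 (h j hj)]
    convert h1 using 2
    · ext r
      rw [tens_apply, tens_apply]
      exact Finset.sum_congr rfl fun j hj => by rw [hσ j hj]
    · ext r
      rw [tens_apply, tens_apply]
      exact Finset.sum_congr rfl fun j hj => by rw [hσ j hj]
  have hcomp : IsCompact ((Set.univ.pi fun x : X => Set.univ.pi fun _ : Fin m =>
      Set.univ.pi fun _ : Fin m => Metric.closedBall (0 : ℂ) (‖lam x‖ / ‖kap x‖)) ∩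
      ⋂ i, {Φ : X → Fin m → Fin m → ℂ | Φ (z i) = fun r s => W i r s}) :=
    (isCompact_univ_pi fun _ => isCompact_univ_pi fun _ => isCompact_univ_pi fun _ =>
      isCompact_closedBall _ _).inter_right
      (isClosed_iInter fun i => isClosed_eq (continuous_apply _) continuous_const)
  obtain ⟨Φ, ⟨-, hΦ⟩, hΦ2⟩ := hcomp.inter_iInter_nonempty
    (fun t : Finset X × (X → Fin m → ℂ) =>
      {Φ | ‖tens t.1 kap fun j => (of (Φ j))ᴴ *ᵥ t.2 j‖ ≤ ‖tens t.1 lam t.2‖})
    (fun t => isClosed_le (Continuous.norm ((PiLp.continuous_toLp 2 _).comp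
      (continuous_pi fun r => continuous_finsetSum _ fun j _ => by
        simp only [mulVec, dotProduct, conjTranspose_apply, of_apply]
        fun_prop))) continuous_const)
    (fun u => by
      let S : Finset X := F ∪ u.biUnion fun t => t.1
      obtain ⟨G', h1, h2, h3⟩ := fullify
        (fun i _ G hG => cert_T hlam hkap hC (S.erase i) i G hG) (hA.extend S)
      have : ∀ j, ∃ V : Matrix (Fin m) (Fin m) ℂ, (j ∈ S → ∀ η, (η, Vᴴ *ᵥ η) ∈ G' j) ∧
          (j ∈ F → V = W (σ j)) ∧ (j ∉ S → V = 0) := fun j => by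
        by_cases hj : j ∈ F
        · refine ⟨W (σ j), fun _ η => h1 j ?_, fun _ => rfl,
            fun h => absurd (Finset.mem_union_left _ hj) h⟩
          simp [hj, mem_gr]
        · by_cases hj' : j ∈ S
          · exact (h3 j hj').section.imp fun V h => ⟨fun _ => h, fun h => absurd h hj,
              fun h => absurd hj' h⟩
          · exact ⟨0, fun h => absurd h hj', fun h => absurd h hj, fun _ => rfl⟩
      choose V hV1 hV2 hV3 using this
      have hB : Adm lam kap S fun j => gr (V j) := fun ξ ζ h => h2 ξ ζ fun j hj => by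
        rw [(mem_gr _ _ _).1 (h j hj)]
        exact hV1 j hj _
      refine ⟨fun j r s => V j r s, ⟨fun x _ r _ s _ => ?_, ?_⟩, ?_⟩
      · rw [mem_closedBall_zero_iff]
        by_cases hx : x ∈ S
        · have h4 := hB (Pi.single x (Pi.single r 1)) _ fun j _ => (mem_gr _ _ _).2 rfl
          rw [hsing] at h4
          have h5 := PiLp.norm_apply_le (tens S kap (Pi.single x ((V x)ᴴ *ᵥ Pi.single r 1))) s
          have h6 : ‖tens S lam (Pi.single x (Pi.single r (1 : ℂ)))‖ = ‖lam x‖ := by
            have : tens S lam (Pi.single x (Pi.single r (1 : ℂ))) = PiLp.single 2 r (lam x) := by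
              ext r'
              rw [tens_single hx]
              by_cases h : r' = r
              · subst h; simp
              · simp [h]
            rw [this, PiLp.norm_single]
          rw [tens_single hx, norm_smul] at h5
          rw [le_div_iff₀ (norm_pos_iff.2 (hne x))]
          simpa using (h5.trans h4).trans h6.le
        · simp only [hV3 x hx, Matrix.zero_apply, norm_zero]
          positivity
      · simp only [Set.mem_iInter, Set.mem_ofPred_eq]
        intro i
        have hi : z i ∈ F := Finset.mem_image_of_mem _ (Finset.mem_univ _)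
        rw [hV2 _ hi, hcons _ _ (hσ _ hi)]
      · simp only [Set.mem_iInter, Set.mem_ofPred_eq]
        intro t ht
        have hs : t.1 ⊆ S := fun j hj =>
          Finset.mem_union_right _ (Finset.mem_biUnion.2 ⟨t, ht, hj⟩)
        exact hB.mono hs t.2 (fun j => (V j)ᴴ *ᵥ t.2 j) fun j _ => (mem_gr _ _ _).2 rfl)
  exact ⟨fun j => of (Φ j), (pick_iff hlam hkap _).2 fun S ξ => Set.mem_iInter.1 hΦ2 (S, ξ),
    fun i => Set.mem_iInter.1 hΦ i⟩

theorem cert_mul {h : Matrix X X ℂ} (hl : l.PosSemidef) (hh : h.PosSemidef)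
    (hl0 : ∀ x, l x x ≠ 0) (hh0 : ∀ x, h x x ≠ 0) (hC : HasCert k l) : HasCert k (l ⊙ h) := by
  obtain ⟨P, hP⟩ := hC
  obtain ⟨M, _, _, μ, hμ⟩ := exists_gram hh
  refine ⟨P, fun z => ⟨(hP z).1, ?_, (hP z).2.2⟩⟩
  have e : compress (l ⊙ h) z - P z ⊙ (l ⊙ h) = (compress l z - P z ⊙ l) ⊙ h +
      ((l z z)⁻¹ • dyad (l z)) ⊙ compress h z := by
    ext x y
    have := hl0 z
    have := hh0 z
    simp only [Matrix.sub_apply, Matrix.add_apply, hadamard_apply, compress_apply,
      Matrix.smul_apply, dyad, of_apply, smul_eq_mul, ← Complex.star_def, hl.1.apply]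
    field_simp
    ring
  rw [e]
  exact ((hP z).2.1.hadamard hh).add (((dyad_psd _).smul
    (inv_nonneg.2 (hl.diag_nonneg (i := z)))).hadamard (gram_psd (gram_Q hμ z)))

end Pool.Agent.H.MP_e3a8c8_an
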