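import Mathlib
import Pool.Agent.H.MP_e3a8c8_an.E

set_option autoImplicit false
open scoped InnerProductSpace ComplexConjugate ComplexOrder
open Matrix

namespace Pool.Agent.H.MP_e3a8c8_an

noncomputable def k0 : Matrix (Fin 3) (Fin 3) ℂ := !![1, 0, 1 / 2; 0, 1, 1 / 2; 1 / 2, 1 / 2, 1]
noncomputable def k1 : Matrix (Fin 3) (Fin 3) ℂ := !![1, 0, 1 / 2; 0, 1, 0; 1 / 2, 0, 1]
noncomputable def l0 : Matrix (Fin 3) (Fin 3) ℂ := !![1, 0, 1 / 2; 0, 0, 0; 1 / 2, 0, 1]

theorem diag_psd (a b c : ℝ) (ha : 0 ≤ a) (hb : 0 ≤ b) (hc : 0 ≤ c) (M : Matrix (Fin 3) (Fin 3) ℂ)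
    (h : M = !![(a : ℂ), 0, 0; 0, b, 0; 0, 0, c]) : M.PosSemidef := by
  have : M = diagonal ![(a : ℂ), b, c] := by
    rw [h]
    ext i j
    fin_cases i <;> fin_cases j <;> simp
  rw [this]
  refine PosSemidef.diagonal fun i => ?_
  fin_cases i
  · exact Complex.zero_le_real.2 ha
  · exact Complex.zero_le_real.2 hb
  · exact Complex.zero_le_real.2 hc

theorem k0_psd : k0.PosSemidef := by
  have := ((dyad_psd ![1, 0, 1 / 2]).add (dyad_psd ![0, 1, 1 / 2])).add
    (diag_psd 0 0 (1 / 2) le_rfl le_rfl (by norm_num) _ rfl)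
  convert this using 1
  ext i j
  fin_cases i <;> fin_cases j <;> simp [k0, dyad, map_ofNat] <;> norm_num

theorem k1_psd : k1.PosSemidef := by
  have := (dyad_psd ![1, 0, 1 / 2]).add
    (diag_psd 0 1 (3 / 4) le_rfl (by norm_num) (by norm_num) _ rfl)
  convert this using 1
  ext i j
  fin_cases i <;> fin_cases j <;> simp [k1, dyad, map_ofNat] <;> norm_num

theorem l0_psd : l0.PosSemidef := by
  have := (dyad_psd ![1, 0, 1 / 2]).add
    (diag_psd 0 0 (3 / 4) le_rfl (by norm_num) (by norm_num) _ rfl)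
  convert this using 1
  ext i j
  fin_cases i <;> fin_cases j <;> simp [l0, dyad, map_ofNat] <;> norm_num

theorem cert1 : HasCert k1 l0 := by
  refine ⟨![!![0, 0, 0; 0, 1, 0; 0, 0, 3 / 4], dyad fun _ => 1, !![3 / 4, 0, 0; 0, 1, 0; 0, 0, 0]],
    fun z => ?_⟩
  fin_cases z
  · refine ⟨diag_psd 0 1 (3 / 4) le_rfl (by norm_num) (by norm_num) _ (by simp),
      diag_psd 0 0 0 le_rfl le_rfl le_rfl _ ?_, diag_psd 0 0 0 le_rfl le_rfl le_rfl _ ?_⟩
    · ext i j
      fin_cases i <;> fin_cases j <;> simp [l0, compress_apply] <;> norm_num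
    · ext i j
      fin_cases i <;> fin_cases j <;> simp [k1, compress_apply] <;> norm_num
  · refine ⟨dyad_psd _,
      diag_psd 0 0 0 le_rfl le_rfl le_rfl _ ?_, diag_psd 0 1 0 le_rfl (by norm_num) le_rfl _ ?_⟩
    · ext i j
      fin_cases i <;> fin_cases j <;> simp [l0, compress_apply, dyad]
    · ext i j
      fin_cases i <;> fin_cases j <;> simp [k1, compress_apply, dyad]
  · refine ⟨diag_psd (3 / 4) 1 0 (by norm_num) (by norm_num) le_rfl _ (by simp),
      diag_psd 0 0 0 le_rfl le_rfl le_rfl _ ?_, diag_psd 0 0 0 le_rfl le_rfl le_rfl _ ?_⟩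
    · ext i j
      fin_cases i <;> fin_cases j <;> simp [l0, compress_apply] <;> norm_num
    · ext i j
      fin_cases i <;> fin_cases j <;> simp [k1, compress_apply] <;> norm_num

theorem W_zero {Y : Type*} {m : ℕ} {k l : Matrix Y Y ℂ} {W : Y → Matrix (Fin m) (Fin m) ℂ}
    (h : (Pick k l W).PosSemidef) (i : Y) (hl : l i i = 0) (hk : k i i = 1) : W i = 0 := by
  ext r s
  have h1 := (Complex.le_def.1 (h.diag_nonneg (i := (i, r)))).1
  simp only [Pick, of_apply, hl, hk, zero_smul, one_smul, zero_sub, Matrix.neg_apply, mul_apply,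
    conjTranspose_apply, Complex.star_def, Complex.mul_conj, Complex.neg_re, Complex.re_sum,
    Complex.ofReal_re, Complex.zero_re, neg_nonneg] at h1
  have h2 := Finset.single_le_sum (f := fun s => Complex.normSq (W i r s))
    (fun s _ => Complex.normSq_nonneg _) (Finset.mem_univ s)
  exact Complex.normSq_eq_zero.1 (le_antisymm (h2.trans h1) (Complex.normSq_nonneg _))

theorem pick_eq {Y : Type*} {m : ℕ} (z : Y → Fin 3) (W : Y → Matrix (Fin m) (Fin m) ℂ)
    (h : ∀ i, z i = 1 → W i = 0) :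
    Pick (k0.submatrix z z) (l0.submatrix z z) W = Pick (k1.submatrix z z) (l0.submatrix z z) W := by
  ext ⟨i, r⟩ ⟨j, s⟩
  simp only [Pick, of_apply, submatrix_apply]
  by_cases hi : z i = 1
  · simp [h i hi]
  by_cases hj : z j = 1
  · simp [h j hj]
  have : k0 (z i) (z j) = k1 (z i) (z j) := by
    revert hi hj
    generalize z i = a
    generalize z j = b
    fin_cases a <;> fin_cases b <;> simp [k0, k1]
  rw [this]

theorem cp0 : CPpair k0 l0 := by
  intro n m hn hm z W hW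
  rw [pick_eq z W fun i hi => W_zero hW i (by simp [hi, l0]) (by simp [hi, k0])] at hW
  obtain ⟨Φ, h1, h2⟩ := cp_of_cert k1_psd l0_psd (fun x => by fin_cases x <;> simp [k1]) cert1
    n m hn hm z W hW
  refine ⟨Φ, ?_, h2⟩
  have := pick_eq id Φ fun i hi => W_zero h1 i (by simp [show i = 1 from hi, l0])
    (by simp [show i = 1 from hi, k1])
  simp only [submatrix_id_id] at this
  rwa [this]

theorem nocert : ¬ HasCert k0 l0 := by
  rintro ⟨p, hp⟩
  obtain ⟨-, h1, h2⟩ := hp 2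
  have a1 := h1.diag_nonneg (i := 0)
  have a2 := h2.diag_nonneg (i := 0)
  have e : (p 2 ⊙ k0 - compress k0 2) 0 0 = -(compress l0 2 - p 2 ⊙ l0) 0 0 := by
    simp [compress_apply, k0, l0]
  have a3 : (p 2 ⊙ k0 - compress k0 2) 0 0 = 0 := le_antisymm (by rw [e]; exact neg_nonpos.2 a1) a2
  obtain ⟨M, _, _, μ, hμ⟩ := exists_gram h2
  rw [← hμ, inner_self_eq_zero] at a3
  have a4 := hμ 0 1
  rw [a3, inner_zero_left] at a4
  simp [compress_apply, k0] at a4

end Pool.Agent.H.MP_e3a8c8_an
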